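import Pool.Agent.H254Z.MF.Main

/-!
# The principle WF^s_{s4} does not imply the axiom of choice over ZF
-/

set_option autoImplicit false

namespace Pool.Agent.Results.MP_a078ad_lc.ANoChoice

open Pool.Agent.H164Z.Bspt Pool.Agent.H254Z.MF

/-- There is a model of ZF in which every sequence of surjections `A n → A (n + 1)` has an `n`
with `|A n| ≤* |A (n + 1)|` and the axiom of choice fails. -/
theorem result : ∃ (M : Type) (E : M → M → Prop), IsZF E ∧ WFss4 E ∧ ¬ Choice E := by
  obtain ⟨M, E, h1, -, h2, -, h3⟩ := main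
  exact ⟨M, E, h1, h2.2.2.2, h3⟩

end Pool.Agent.Results.MP_a078ad_lc.ANoChoice
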